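import Pool.Agent.R244.LZ.Stm

/-!
# Project LZ, piece H: the heat flow of dyadic martingales
-/

set_option autoImplicit false

open MeasureTheory Filter Topology
open scoped BigOperators Real ENNReal

namespace Pool.Agent.R928.LZ

open Pool.Agent.R244.LZ

/-! ### words -/

theorem words_sum (n : ℕ) (G : List Bool → ℝ) :
    ∑ w ∈ words (n + 1), G w = ∑ w ∈ words n, (G (false :: w) + G (true :: w)) := by
  rw [words, Finset.sum_union, Finset.sum_image, Finset.sum_image, Finset.sum_add_distrib]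
  · intro a _ b _ h
    exact (List.cons.inj h).2
  · intro a _ b _ h
    exact (List.cons.inj h).2
  · rw [Finset.disjoint_left]
    intro w h1 h2
    rw [Finset.mem_image] at h1 h2
    obtain ⟨a, -, rfl⟩ := h1
    obtain ⟨b, -, hb⟩ := h2
    have := (List.cons.inj hb).1
    cases this

theorem words_split (n k : ℕ) (G : List Bool → ℝ) :
    ∑ w ∈ words (n + k), G w = ∑ u ∈ words k, ∑ v ∈ words n, G (v ++ u) := by
  induction n generalizing G with
  | zero => simp [words]
  | succ n ih =>
    rw [show n + 1 + k = n + k + 1 by ring, words_sum, ih]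
    apply Finset.sum_congr rfl
    intro u _
    rw [words_sum]
    rfl

theorem desc_sum {a : List Bool → ℝ} (ha : ∀ w, a (false :: w) + a (true :: w) = 2 * a w)
    (n : ℕ) (u : List Bool) : ∑ v ∈ words n, a (v ++ u) = 2 ^ n * a u := by
  induction n with
  | zero => simp [words]
  | succ n ih =>
    rw [words_sum]
    have h1 : ∀ v ∈ words n, a ((false :: v) ++ u) + a ((true :: v) ++ u) = 2 * a (v ++ u) :=
      fun v _ => ha (v ++ u)
    rw [Finset.sum_congr rfl h1, ← Finset.mul_sum, ih]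
    ring

theorem words_length {n : ℕ} {w : List Bool} (h : w ∈ words n) : w.length = n := by
  induction n generalizing w with
  | zero => simp [words] at h; simp [h]
  | succ n ih =>
    rw [words, Finset.mem_union, Finset.mem_image, Finset.mem_image] at h
    rcases h with ⟨v, hv, rfl⟩ | ⟨v, hv, rfl⟩
    · rw [List.length_cons, ih hv]
    · rw [List.length_cons, ih hv]

theorem words_nonempty (n : ℕ) : (words n).Nonempty := by
  induction n with
  | zero => exact ⟨[], by simp [words]⟩
  | succ n ih =>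
    obtain ⟨w, hw⟩ := ih
    refine ⟨false :: w, ?_⟩
    rw [words, Finset.mem_union, Finset.mem_image]
    exact Or.inl ⟨w, hw, rfl⟩

/-! ### sides -/

theorem mm_formula (d : ℕ) [NeZero d] (k : ℕ) (ι : Fin d) :
    mm d k ι = (k + (d - 1 - (ι : ℕ))) / d := by
  have hd : 0 < d := Nat.pos_of_ne_zero (NeZero.ne d)
  have hι : (ι : ℕ) < d := ι.2
  induction k with
  | zero =>
    rw [mm, zero_add]
    exact (Nat.div_eq_of_lt (by omega)).symm
  | succ k ih =>
    rw [mm, ih, show k + 1 + (d - 1 - (ι : ℕ)) = k + (d - 1 - (ι : ℕ)) + 1 by ring,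
      Nat.succ_div]
    congr 1
    have h1 : (Fin.ofNat d k = ι) ↔ (d ∣ k + (d - 1 - (ι : ℕ)) + 1) := by
      rw [Fin.ext_iff]
      change k % d = ι ↔ _
      have h2 : k + (d - 1 - (ι : ℕ)) + 1 = k + (d - ι) := by omega
      rw [h2]
      constructor
      · intro h
        have h3 : k + (d - (ι : ℕ)) = d * (k / d + 1) := by
          have := Nat.div_add_mod k d
          rw [h] at this
          rw [mul_add, mul_one]
          omega
        rw [h3]; exact dvd_mul_right _ _
      · rintro ⟨c, hc⟩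
        have hc1 : 1 ≤ c := by
          rcases Nat.eq_zero_or_pos c with h | h
          · rw [h, mul_zero] at hc; omega
          · exact h
        obtain ⟨c', rfl⟩ : ∃ c', c = c' + 1 := ⟨c - 1, by omega⟩
        have h4 : k = d * c' + ι := by
          rw [mul_add, mul_one] at hc; omega
        rw [h4, Nat.mul_add_mod, Nat.mod_eq_of_lt hι]
    by_cases h : Fin.ofNat d k = ι
    · rw [if_pos h, if_pos (h1.1 h)]
    · rw [if_neg h, if_neg fun h' => h (h1.2 h')]

theorem le_mm (d : ℕ) [NeZero d] (k : ℕ) (ι : Fin d) : k / d ≤ mm d k ι := by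
  rw [mm_formula]
  exact Nat.div_le_div_right (Nat.le_add_right _ _)

/-- points in the same box are close -/
theorem box_dist {d : ℕ} [NeZero d] {x y y' : E d} {k : ℕ} (hy : y ∈ box x k)
    (hy' : y' ∈ box x k) : ‖y - y'‖ ^ 2 ≤ d * (1 / 4) ^ (k / d) := by
  rw [EuclideanSpace.norm_sq_eq]
  have h1 : ∀ ι ∈ (Finset.univ : Finset (Fin d)), ‖(y - y') ι‖ ^ 2 ≤ (1 / 4 : ℝ) ^ (k / d) := by
    intro ι _
    have h2 : |(y - y') ι| ≤ (1 / 2 : ℝ) ^ (mm d k ι) := by
      have h3 := hy ι
      have h4 := hy' ι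
      rw [PiLp.sub_apply, abs_le]
      constructor <;> linarith [h3.1, h3.2, h4.1, h4.2]
    have h5 : (1 / 2 : ℝ) ^ (mm d k ι) ≤ (1 / 2 : ℝ) ^ (k / d) :=
      pow_le_pow_of_le_one (by norm_num) (by norm_num) (le_mm d k ι)
    rw [Real.norm_eq_abs]
    calc |(y - y') ι| ^ 2 ≤ ((1 / 2 : ℝ) ^ (k / d)) ^ 2 :=
          pow_le_pow_left₀ (abs_nonneg _) (h2.trans h5) 2
      _ = (1 / 4 : ℝ) ^ (k / d) := by
          rw [← pow_mul, mul_comm, pow_mul]; norm_num
  calc ∑ ι, ‖(y - y') ι‖ ^ 2 ≤ ∑ _ι : Fin d, (1 / 4 : ℝ) ^ (k / d) := Finset.sum_le_sum h1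
    _ = d * (1 / 4) ^ (k / d) := by simp

/-! ### the kernel -/

theorem heat_nonneg {d : ℕ} {t : ℝ} (ht : 0 < t) (x : E d) : 0 ≤ heat t x := by
  unfold heat; positivity

theorem heat_integrable {d : ℕ} {t : ℝ} (ht : 0 < t) (x : E d) :
    Integrable (fun y : E d => heat t (x - y)) ∧ ∫ y : E d, heat t (x - y) = 1 := by
  have h1 : ∫ y : E d, heat t y = 1 := by
    unfold heat
    rw [integral_const_mul]
    have h2 : ∀ y : E d, Real.exp (-‖y‖ ^ 2 / (4 * t)) = Real.exp (-(1 / (4 * t)) * ‖y‖ ^ 2) := by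
      intro y; congr 1; ring
    simp_rw [h2]
    rw [GaussianFourier.integral_rexp_neg_mul_sq_norm (by positivity)]
    rw [finrank_euclideanSpace, Fintype.card_fin]
    have h3 : π / (1 / (4 * t)) = 4 * π * t := by field_simp
    rw [h3, ← Real.rpow_add (by positivity)]
    have h4 : -(d : ℝ) / 2 + (d : ℝ) / 2 = 0 := by ring
    rw [h4, Real.rpow_zero]
  have h2 : Integrable (fun y : E d => heat t y) := by
    by_contra hcon
    rw [integral_undef hcon] at h1
    exact zero_ne_one h1
  refine ⟨h2.comp_sub_left x, ?_⟩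
  rw [integral_sub_left_eq_self (fun y : E d => heat t y) volume x]
  exact h1

theorem heat_compare {d : ℕ} {t : ℝ} (ht : 0 < t) {z z' : E d} (h : ‖z' - z‖ ^ 2 ≤ 4 * d * t) :
    heat t z ≤ (Real.exp d * 2 ^ ((d : ℝ) / 2)) * heat (2 * t) z' := by
  have h1 : ‖z'‖ ^ 2 ≤ 2 * ‖z‖ ^ 2 + 2 * ‖z' - z‖ ^ 2 := by
    have h2 : ‖z'‖ ≤ ‖z‖ + ‖z' - z‖ := by
      have : z' = z + (z' - z) := by abel
      calc ‖z'‖ = ‖z + (z' - z)‖ := by rw [← this]
        _ ≤ ‖z‖ + ‖z' - z‖ := norm_add_le _ _
    nlinarith [norm_nonneg z', norm_nonneg z, norm_nonneg (z' - z),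
      sq_nonneg (‖z‖ - ‖z' - z‖)]
  have h3 : (4 * π * t) ^ (-(d : ℝ) / 2) = 2 ^ ((d : ℝ) / 2) * (4 * π * (2 * t)) ^ (-(d : ℝ) / 2) := by
    have e0 : 4 * π * (2 * t) = 2 * (4 * π * t) := by ring
    have e1 : (2 * (4 * π * t)) ^ (-(d : ℝ) / 2) =
        2 ^ (-(d : ℝ) / 2) * (4 * π * t) ^ (-(d : ℝ) / 2) :=
      Real.mul_rpow (by norm_num) (by positivity)
    have e2 : (2 : ℝ) ^ ((d : ℝ) / 2) * 2 ^ (-(d : ℝ) / 2) = 1 := by
      rw [← Real.rpow_add (by norm_num), show (d : ℝ) / 2 + -(d : ℝ) / 2 = 0 by ring,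
        Real.rpow_zero]
    rw [e0, e1, ← mul_assoc, e2, one_mul]
  have h4 : Real.exp (-‖z‖ ^ 2 / (4 * t)) ≤ Real.exp d * Real.exp (-‖z'‖ ^ 2 / (4 * (2 * t))) := by
    rw [← Real.exp_add]
    apply Real.exp_le_exp.2
    rw [div_le_iff₀ (by positivity)]
    have h5 : ((d : ℝ) + -‖z'‖ ^ 2 / (4 * (2 * t))) * (4 * t) = 4 * d * t - ‖z'‖ ^ 2 / 2 := by
      field_simp
      ring
    rw [h5]
    linarith
  unfold heat
  rw [h3]
  have h6 : 0 ≤ (2 : ℝ) ^ ((d : ℝ) / 2) * (4 * π * (2 * t)) ^ (-(d : ℝ) / 2) := by positivity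
  calc 2 ^ ((d : ℝ) / 2) * (4 * π * (2 * t)) ^ (-(d : ℝ) / 2) * Real.exp (-‖z‖ ^ 2 / (4 * t))
      ≤ 2 ^ ((d : ℝ) / 2) * (4 * π * (2 * t)) ^ (-(d : ℝ) / 2) *
        (Real.exp d * Real.exp (-‖z'‖ ^ 2 / (4 * (2 * t)))) := mul_le_mul_of_nonneg_left h4 h6
    _ = _ := by ring

/-! ### sums over disjoint boxes -/

theorem sum_boxes (h4 : Stm4) {d : ℕ} [NeZero d] (N : ℕ) {t : ℝ} (ht : 0 < t) (x : E d) :
    ∑ w ∈ words N, ∫ y in RR w, heat t (x - y) ≤ 1 := by
  obtain ⟨hi, h1⟩ := heat_integrable ht x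
  rw [← integral_biUnion_finset (μ := volume) (words N) (s := fun w => (RR w : Set (E d)))
    (fun w _ => ((h4 d).1 w).1) (fun w hw w' hw' hne => (h4 d).2.1 N w hw w' hw' hne)
    (fun w _ => hi.integrableOn)]
  rw [← h1]
  exact setIntegral_le_integral hi (Eventually.of_forall fun y => heat_nonneg ht _)

theorem stmH (h4 : Stm4) : StmH := by
  intro d _
  have hd : (0 : ℝ) < d := by
    have := Nat.pos_of_ne_zero (NeZero.ne d)
    exact_mod_cast this
  set C : ℝ := Real.exp d * 2 ^ ((d : ℝ) / 2) with hC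
  have hC1 : 1 ≤ C := by
    rw [hC]
    have e1 : 1 ≤ Real.exp (d : ℝ) := Real.one_le_exp hd.le
    have e2 : 1 ≤ (2 : ℝ) ^ ((d : ℝ) / 2) := Real.one_le_rpow (by norm_num) (by positivity)
    nlinarith
  refine ⟨C, by linarith, ?_⟩
  intro a ha0 ha k N M t x hkN hM ht hcase
  have hM0 : 0 ≤ M := by
    obtain ⟨w, hw⟩ := words_nonempty k
    exact (ha0 w).trans (hM w hw)
  have hI0 : ∀ (s : ℝ) (w : List Bool), 0 < s → 0 ≤ ∫ y in (RR w : Set (E d)), heat s (x - y) :=
    fun s w hs => setIntegral_nonneg ((h4 d).1 w).1 fun y _ => heat_nonneg hs _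
  rcases hcase with hcase | rfl
  · obtain ⟨n, rfl⟩ : ∃ n, N = n + k := ⟨N - k, by omega⟩
    rw [words_split]
    have ht2 : 0 < 2 * t := by positivity
    have key : ∀ u ∈ words k, ∑ v ∈ words n, a (v ++ u) * ∫ y in (RR (v ++ u) : Set (E d)),
        heat t (x - y) ≤ a u * (C * ∫ y in (RR u : Set (E d)), heat (2 * t) (x - y)) := by
      intro u hu
      have hlu : u.length = k := words_length hu
      -- descendants are contained in the box of `u`
      have hsub : ∀ v : List Bool, (RR (v ++ u) : Set (E d)) ⊆ RR u := by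
        intro v
        induction v with
        | nil => exact subset_rfl
        | cons b v ih =>
          refine subset_trans ?_ ih
          rw [((h4 d).1 (v ++ u)).2.2.1]
          cases b
          · exact Set.subset_union_left
          · exact Set.subset_union_right
      set J : ℝ := ∫ y in (RR u : Set (E d)), heat (2 * t) (x - y) with hJ
      have hvolu : volume.real (RR u : Set (E d)) = (1 / 2) ^ k := by
        rw [Measure.real, ((h4 d).1 u).2.1, ENNReal.toReal_ofReal (by positivity), hlu]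
      -- pointwise bound
      have hpt : ∀ y ∈ (RR u : Set (E d)), heat t (x - y) ≤ C * 2 ^ k * J := by
        intro y hy
        have h1 : ∀ y' ∈ (RR u : Set (E d)), heat t (x - y) ≤ C * heat (2 * t) (x - y') := by
          intro y' hy'
          apply heat_compare ht
          have h2 : (x - y') - (x - y) = y - y' := by abel
          rw [h2]
          have h3 := box_dist (k := k) (x := xx u) (y := y) (y' := y')
            (by rw [← hlu]; exact hy) (by rw [← hlu]; exact hy')
          have h5 : (1 / 4 : ℝ) ^ (k / d) ≤ 4 * t := by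
            rw [pow_succ] at hcase
            linarith
          calc ‖y - y'‖ ^ 2 ≤ d * (1 / 4) ^ (k / d) := h3
            _ ≤ d * (4 * t) := mul_le_mul_of_nonneg_left h5 hd.le
            _ = 4 * d * t := by ring
        have h6 : ∫ _y' in (RR u : Set (E d)), heat t (x - y) ≤
            ∫ y' in (RR u : Set (E d)), C * heat (2 * t) (x - y') := by
          apply setIntegral_mono_on _ _ ((h4 d).1 u).1 h1
          · exact integrableOn_const (by
              rw [((h4 d).1 u).2.1]; exact ENNReal.ofReal_ne_top)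
          · exact ((heat_integrable ht2 x).1.const_mul C).integrableOn
        rw [setIntegral_const, integral_const_mul, hvolu, smul_eq_mul, ← hJ] at h6
        have h7 : (2 : ℝ) ^ k * ((1 / 2) ^ k * heat t (x - y)) ≤ 2 ^ k * (C * J) :=
          mul_le_mul_of_nonneg_left h6 (by positivity)
        have h8 : (2 : ℝ) ^ k * (1 / 2) ^ k = 1 := by
          rw [← mul_pow]; norm_num
        calc heat t (x - y) = ((2 : ℝ) ^ k * (1 / 2) ^ k) * heat t (x - y) := by rw [h8, one_mul]
          _ = (2 : ℝ) ^ k * ((1 / 2) ^ k * heat t (x - y)) := by ring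
          _ ≤ 2 ^ k * (C * J) := h7
          _ = C * 2 ^ k * J := by ring
      have hint : ∀ v ∈ words n, ∫ y in (RR (v ++ u) : Set (E d)), heat t (x - y) ≤
          (1 / 2) ^ (n + k) * (C * 2 ^ k * J) := by
        intro v hv
        have hlv : (v ++ u).length = n + k := by
          rw [List.length_append, words_length hv, hlu]
        have hvolv : volume.real (RR (v ++ u) : Set (E d)) = (1 / 2) ^ (n + k) := by
          rw [Measure.real, ((h4 d).1 (v ++ u)).2.1, ENNReal.toReal_ofReal (by positivity), hlv]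
        have h6 : ∫ y in (RR (v ++ u) : Set (E d)), heat t (x - y) ≤
            ∫ _y in (RR (v ++ u) : Set (E d)), C * 2 ^ k * J := by
          apply setIntegral_mono_on (heat_integrable ht x).1.integrableOn _
            ((h4 d).1 (v ++ u)).1 fun y hy => hpt y (hsub v hy)
          exact integrableOn_const (by
            rw [((h4 d).1 (v ++ u)).2.1]; exact ENNReal.ofReal_ne_top)
        rwa [setIntegral_const, hvolv, smul_eq_mul] at h6
      calc ∑ v ∈ words n, a (v ++ u) * ∫ y in (RR (v ++ u) : Set (E d)), heat t (x - y)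
          ≤ ∑ v ∈ words n, a (v ++ u) * ((1 / 2) ^ (n + k) * (C * 2 ^ k * J)) :=
            Finset.sum_le_sum fun v hv => mul_le_mul_of_nonneg_left (hint v hv) (ha0 _)
        _ = (2 ^ n * a u) * ((1 / 2) ^ (n + k) * (C * 2 ^ k * J)) := by
            rw [← Finset.sum_mul, desc_sum ha]
        _ = ((2 ^ n * (1 / 2) ^ n) * (2 ^ k * (1 / 2) ^ k)) * (a u * (C * J)) := by
            rw [pow_add]; ring
        _ = a u * (C * J) := by
            rw [← mul_pow, ← mul_pow]; norm_num
    calc ∑ u ∈ words k, ∑ v ∈ words n, a (v ++ u) * ∫ y in (RR (v ++ u) : Set (E d)),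
          heat t (x - y)
        ≤ ∑ u ∈ words k, a u * (C * ∫ y in (RR u : Set (E d)), heat (2 * t) (x - y)) :=
          Finset.sum_le_sum key
      _ ≤ ∑ u ∈ words k, M * (C * ∫ y in (RR u : Set (E d)), heat (2 * t) (x - y)) := by
          apply Finset.sum_le_sum
          intro u hu
          apply mul_le_mul_of_nonneg_right (hM u hu)
          exact mul_nonneg (by linarith) (hI0 _ u ht2)
      _ = C * M * ∑ u ∈ words k, ∫ y in (RR u : Set (E d)), heat (2 * t) (x - y) := by
          rw [Finset.mul_sum]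
          apply Finset.sum_congr rfl
          intro u _
          ring
      _ ≤ C * M * 1 := by
          apply mul_le_mul_of_nonneg_left (sum_boxes h4 k ht2 x)
          exact mul_nonneg (by linarith) hM0
      _ = C * M := mul_one _
  · calc ∑ w ∈ words k, a w * ∫ y in (RR w : Set (E d)), heat t (x - y)
        ≤ ∑ w ∈ words k, M * ∫ y in (RR w : Set (E d)), heat t (x - y) :=
          Finset.sum_le_sum fun w hw => mul_le_mul_of_nonneg_right (hM w hw) (hI0 _ w ht)
      _ = M * ∑ w ∈ words k, ∫ y in (RR w : Set (E d)), heat t (x - y) := by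
          rw [Finset.mul_sum]
      _ ≤ M * 1 := mul_le_mul_of_nonneg_left (sum_boxes h4 k ht x) hM0
      _ ≤ C * M := by nlinarith

end Pool.Agent.R928.LZ
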